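import Pool.Agent.V7H82.NR.Tens

/-!
# The kernel of a lattice of cycles with divisible coefficients
-/

set_option autoImplicit false

namespace Pool.Agent.V7H82.NR

open Module

theorem finite_tors (a : ℤ) (ha : a ≠ 0) : {t : QZ | a • t = 0}.Finite := by
  have h1 : {t : QZ | a • t = 0} ⊆ {t : QZ | a.natAbs • t = 0} := by
    intro t ht
    have ht' : a • t = 0 := ht
    change a.natAbs • t = 0
    rcases Int.natAbs_eq a with h | h
    · rw [← natCast_zsmul, ← h]
      exact ht'
    · rw [← natCast_zsmul]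
      have h2 : (a.natAbs : ℤ) = -a := by omega
      rw [h2, neg_smul, ht', neg_zero]
  exact (AddCircle.finite_torsion (1 : ℚ) (Int.natAbs_pos.2 ha)).subset h1

theorem divisible (m : ℕ) (hm : 0 < m) (t : QZ) : ∃ t' : QZ, t = m • t' := by
  obtain ⟨x, rfl⟩ := QuotientAddGroup.mk_surjective t
  refine ⟨((x / m : ℚ) : QZ), ?_⟩
  rw [← AddCircle.coe_nsmul]
  congr 1
  rw [nsmul_eq_mul]
  field_simp

variable {A J T : Type} [AddCommGroup A] [AddCommGroup T] [Finite J]

/-- If an element `z` of `A` with `φ j z = 0` for all `j` is a torsion element then only finitely many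
elements of `A ⊗ ℚ / ℤ` are mapped to zero by all `φ j`. -/
theorem finite_ker (φ : J → A →+ ℤ) (h : ∀ z, (∀ j, φ j z = 0) → ∃ n : ℕ, 0 < n ∧ n • z = 0)
    (τ : A → QZ → T) (hτ : IsTensor τ) (e : J → T →+ QZ) (he : ∀ j z t, e j (τ z t) = φ j z • t) :
    {x : T | ∀ j, e j x = 0}.Finite := by
  classical
  obtain ⟨hadd, hadd', hτgen⟩ := hτ
  let τ' : A →+ QZ →+ T := AddMonoidHom.mk' (fun z => AddMonoidHom.mk' (τ z) (hadd' z)) fun z w => by
    ext c
    exact hadd z w c
  have hτ' : ∀ z c, τ z c = τ' z c := fun z c => rfl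
  have := Fintype.ofFinite J
  let Φ : A →ₗ[ℤ] (J → ℤ) := LinearMap.pi fun j => (φ j).toIntLinearMap
  have hΦ : ∀ z j, Φ z j = φ j z := fun z j => rfl
  obtain ⟨s, S⟩ := Submodule.smithNormalForm (Pi.basisFun ℤ J) (LinearMap.range Φ)
  -- lifts of the basis
  have h1 : ∀ k : Fin s, ∃ z : A, Φ z = (S.bN k : J → ℤ) := fun k => (S.bN k).2
  choose β hβ using h1
  have ha : ∀ k, S.a k ≠ 0 := by
    intro k hk
    have h2 := S.snf k
    rw [hk, zero_smul] at h2
    exact S.bN.ne_zero k (Subtype.ext h2)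
  -- generators
  have hgen : ∀ x : T, ∃ t : Fin s → QZ, x = ∑ k, τ' (β k) (t k) := by
    intro x
    have hx : x ∈ AddSubgroup.closure {x | ∃ z c, τ z c = x} := by
      rw [hτgen]
      exact AddSubgroup.mem_top x
    induction hx using AddSubgroup.closure_induction with
    | zero => exact ⟨0, by simp⟩
    | mem x hx =>
      obtain ⟨z, t, rfl⟩ := hx
      let n := S.bN.repr ⟨Φ z, ⟨z, rfl⟩⟩
      have h2 : Φ z = ∑ k, n k • (S.bN k : J → ℤ) := by
        have h3 := congrArg Subtype.val (S.bN.sum_repr ⟨Φ z, ⟨z, rfl⟩⟩)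
        simp only [AddSubmonoidClass.coe_finsetSum, SetLike.val_smul] at h3
        exact h3.symm
      have h3 : Φ (z - ∑ k, n k • β k) = 0 := by
        rw [map_sub, map_sum, h2, sub_eq_zero]
        exact Finset.sum_congr rfl fun k _ => by rw [map_smul, hβ]
      obtain ⟨m, hm, h4⟩ := h (z - ∑ k, n k • β k) fun j => by
        rw [← hΦ, h3]
        rfl
      obtain ⟨t', rfl⟩ := divisible m hm t
      refine ⟨fun k => n k • (m • t'), ?_⟩
      have h5 : τ' (z - ∑ k, n k • β k) (m • t') = 0 := by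
        rw [map_nsmul, ← AddMonoidHom.nsmul_apply, ← map_nsmul, h4, map_zero]
        rfl
      rw [map_sub, AddMonoidHom.sub_apply, sub_eq_zero, map_sum, AddMonoidHom.finsetSum_apply] at h5
      rw [hτ', h5]
      exact Finset.sum_congr rfl fun k _ => by
        rw [map_zsmul, map_zsmul, AddMonoidHom.zsmul_apply]
    | add x y _ _ hx hy =>
      obtain ⟨t, rfl⟩ := hx
      obtain ⟨t', rfl⟩ := hy
      refine ⟨t + t', ?_⟩
      rw [← Finset.sum_add_distrib]
      exact Finset.sum_congr rfl fun k _ => by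
        rw [Pi.add_apply, map_add]
    | neg x _ hx =>
      obtain ⟨t, rfl⟩ := hx
      refine ⟨-t, ?_⟩
      rw [← Finset.sum_neg_distrib]
      exact Finset.sum_congr rfl fun k _ => by
        rw [Pi.neg_apply, map_neg]
  -- the kernel
  have hfin : {t : Fin s → QZ | ∀ k, S.a k • t k = 0}.Finite := by
    have h2 : {t : Fin s → QZ | ∀ k, S.a k • t k = 0} =
        Set.univ.pi fun k => {u : QZ | S.a k • u = 0} := by
      ext t
      simp
    rw [h2]
    exact Set.Finite.pi fun k => finite_tors _ (ha k)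
  refine (hfin.image fun t : Fin s → QZ => ∑ k, τ' (β k) (t k)).subset ?_
  intro x hx
  obtain ⟨t, rfl⟩ := hgen x
  refine ⟨t, fun l => ?_, rfl⟩
  have h2 : ∀ j, ∑ k, (S.bN k : J → ℤ) j • t k = 0 := by
    intro j
    have h3 : e j (∑ k, τ' (β k) (t k)) = 0 := hx j
    rw [map_sum] at h3
    rw [← h3]
    exact Finset.sum_congr rfl fun k _ => by
      rw [← hτ', he, ← hΦ, hβ]
  have h3 : ∀ v : J → ℤ, S.bM.coord (S.f l) v =
      ∑ j, v j * S.bM.coord (S.f l) (Pi.single j 1) := by
    intro v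
    conv_lhs => rw [← Finset.univ_sum_single v, map_sum]
    refine Finset.sum_congr rfl fun j _ => ?_
    have h4 : (Pi.single j (v j) : J → ℤ) = v j • Pi.single j (1 : ℤ) := by
      rw [← Pi.single_smul, smul_eq_mul, mul_one]
    rw [h4, map_smul, smul_eq_mul]
  have h4 : ∑ j, S.bM.coord (S.f l) (Pi.single j 1) • ∑ k, (S.bN k : J → ℤ) j • t k = 0 :=
    Finset.sum_eq_zero fun j _ => by rw [h2, smul_zero]
  simp only [Finset.smul_sum, smul_smul] at h4
  rw [Finset.sum_comm] at h4
  simp only [← Finset.sum_smul] at h4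
  have h5 : ∀ k, ∑ j, S.bM.coord (S.f l) (Pi.single j 1) * (S.bN k : J → ℤ) j =
      if k = l then S.a l else 0 := by
    intro k
    have h6 := h3 (S.bN k : J → ℤ)
    rw [S.snf k, map_smul, smul_eq_mul] at h6
    have h7 : S.bM.coord (S.f l) (S.bM (S.f k)) = if k = l then 1 else 0 := by
      rw [Basis.coord_apply, Basis.repr_self, Finsupp.single_apply]
      simp only [EmbeddingLike.apply_eq_iff_eq]
    rw [h7] at h6
    rw [S.snf k]
    rw [show (if k = l then S.a l else 0) = S.a k * (if k = l then 1 else 0) by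
      split_ifs with hkl
      · rw [hkl, mul_one]
      · rw [mul_zero], h6]
    exact Finset.sum_congr rfl fun j _ => mul_comm _ _
  rw [Finset.sum_congr rfl fun k _ => by rw [h5 k]] at h4
  simpa using h4

end Pool.Agent.V7H82.NR
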