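import Pool.Agent.V7H82.NR.GenDefs
import Pool.Agent.V7H82.NR.Lat
import Pool.Agent.W484.CK.Main

/-!
# Unramified cohomology of varieties dominated by products with almost all abelian varieties
-/

set_option autoImplicit false
set_option linter.unusedSectionVars false

open CategoryTheory AlgebraicGeometry

namespace Pool.Agent.V7H82.NR

open Module Polynomial Pool.Agent.H914 Pool.Agent.H914.VarClass Pool.Agent.H914.VarClass.Obj
  Pool.Agent.W492.BB Pool.Agent.W484.CK Pool.Agent.W484.TB Pool.Agent.W484.HS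
  Pool.Agent.W521.Frob Pool.Agent.W521.Count Pool.Agent.W521.Bad Pool.Agent.W521.Descent
  Pool.Agent.W521.Density

/-- If rational and numerical equivalence coincide on `W` then the unramified cohomology of the
varieties dominated by `W` is finite. -/
theorem finite_of_ratEqNum {k : Type} [Field k] {𝒱 : VarClass k} {C : TheoryData.{0, 0, 0} 𝒱 ℚ}
    {K : Type} [Field K] [CharZero K] {H : WeilTheoryData.{0, 0, 0} C K} {W : 𝒱.Obj}
    (hfin : Module.Finite K (H.A W)) (h : RatEqNum H W) (X : UnramifiedOver H W) :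
    Finite X.Nr := by
  classical
  -- finitely many cycles
  have hJ : ∃ J : Finset (C.A W), (∀ w ∈ J, ∃ j : ℕ, 2 + j = W.dim ∧ C.Deg j w) ∧
      ∀ z : C.A W, C.Deg 2 z → (∀ w ∈ J, H.tr W (H.cl (C.mul z w)) = 0) → z = 0 := by
    obtain ⟨S, hS1, hS2⟩ := (Submodule.fg_span_iff_fg_span_finset_subset (R := K)
      {a : H.A W | ∃ (w : C.A W) (j : ℕ), 2 + j = W.dim ∧ C.Deg j w ∧ H.cl w = a}).1
      (IsNoetherian.noetherian _)
    have h3 : ∀ y : S, ∃ w : C.A W, (∃ j : ℕ, 2 + j = W.dim ∧ C.Deg j w) ∧ H.cl w = y := by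
      intro y
      obtain ⟨w, j, h4, h5, h6⟩ := hS1 y.2
      exact ⟨w, ⟨j, h4, h5⟩, h6⟩
    choose w hw1 hw2 using h3
    refine ⟨Finset.univ.image w, fun v hv => ?_, fun z hz h0 => ?_⟩
    · obtain ⟨y, -, rfl⟩ := Finset.mem_image.1 hv
      exact hw1 y
    · refine h 2 z (by exact_mod_cast hz) fun j v hj hv => ?_
      have hmul : ∀ v : C.A W, H.cl (C.mul z v) = H.cl z * H.cl v := fun v => map_mul H.cl z v
      have h4 : ∀ a ∈ Submodule.span K (S : Set (H.A W)), H.tr W (H.cl z * a) = 0 := by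
        intro a ha
        induction ha using Submodule.span_induction with
        | mem y hy =>
          have h5 := h0 _ (Finset.mem_image_of_mem w (Finset.mem_univ ⟨y, hy⟩))
          rw [hmul, hw2] at h5
          exact h5
        | zero => rw [mul_zero, map_zero]
        | add y y' _ _ h h' => rw [mul_add, map_add, h, h', add_zero]
        | smul a y _ h => rw [mul_smul_comm, map_smul, h, smul_zero]
      rw [hmul]
      refine h4 _ ?_
      rw [← hS2]
      exact Submodule.subset_span ⟨v, j, hj, hv, rfl⟩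
  obtain ⟨J, hJ1, hJ2⟩ := hJ
  have h1 : ∀ v : J, ∃ w' : X.CH', ∀ z, X.deg z w' = 0 →
      H.tr W (H.cl (C.mul (X.pull z) v.1)) = 0 := by
    intro v
    obtain ⟨j, hj, hv⟩ := hJ1 v.1 v.2
    obtain ⟨c, w', hc, hw'⟩ := X.push j v.1 hj hv
    refine ⟨w', fun z hz => ?_⟩
    have h2 := hw' z
    rw [hz, Int.cast_zero] at h2
    rcases mul_eq_zero.1 h2.symm with h3 | h3
    · exact absurd h3 hc
    · exact h3
  choose w hw using h1
  let φ : J → X.CH →+ ℤ := fun v =>
    { toFun := fun z => X.deg z (w v)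
      map_zero' := by
        have h1 := X.deg_add 0 0 (w v)
        rw [add_zero] at h1
        exact left_eq_add.1 h1
      map_add' := fun z z' => X.deg_add z z' (w v) }
  have h1 := finite_ker φ (fun z hz =>
      X.pull_torsion z (hJ2 _ (X.pull_deg z) fun v hv => hw ⟨v, hv⟩ z (hz ⟨v, hv⟩)))
    X.t X.tensor (fun v : J => (X.cup (w v)).comp X.cyc) fun v z t => X.cup_cyc _ _ _
  have h2 : (Set.range X.δ).Finite := by
    refine h1.subset ?_
    rintro _ ⟨x, rfl⟩ v
    change X.cup (w v) (X.cyc (X.δ x)) = 0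
    rw [X.exact', map_zero]
  have h3 : Finite X.δ.range := h2
  have h4 : (X.δ.ker : Set X.Nr).Finite := by
    have := X.finite
    refine (Set.finite_range X.res).subset fun x hx => ?_
    obtain ⟨y, hy⟩ := X.exact x hx
    exact ⟨y, hy⟩
  have h5 : Finite X.δ.ker := h4
  have h6 : Finite (X.Nr ⧸ X.δ.ker) :=
    Finite.of_equiv _ (QuotientAddGroup.quotientKerEquivRange X.δ).symm.toEquiv
  exact Finite.of_equiv _ (AddSubgroup.addGroupEquivQuotientProdAddSubgroup (s := X.δ.ker)).symm

theorem unramified_of_good {I : Type} [Finite I] (g : I → ℕ) (E : IntermediateField ℚ ℂ)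
    [FiniteDimensional ℚ E] {q : ℕ} (hq : 1 < q) (r : ℕ) (hr : ∀ i, r < g i)
    (x : (Σ i, Fin (g i)) → ℤ) (hx : GoodU (splitPrimes E) g q x) :
    UnramifiedForRankOver E q r (fun i => weil q (polys g x i)) := by
  intro k _ 𝒱 C _ K _ _ _ H _ s A Z πA πZ hsit hF hZ X
  have h1 := chowForRankOver_of_good g E hq r hr x hx k 𝒱 C K H s A Z πA πZ hsit hF
  exact finite_of_ratEqNum (hsit.standard.finite _) (h1.2.1.2 hZ) X

end Pool.Agent.V7H82.NR
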