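import Mathlib

/-!
# The group of cycles with coefficients in `ℚ / ℤ`
-/

set_option autoImplicit false

namespace Pool.Agent.V7H82.NR

/-- The group `ℚ / ℤ`. -/
abbrev QZ : Type := AddCircle (1 : ℚ)

/-- The group `T` is generated by symbols `t z c = z ⊗ c`, `z ∈ A`, `c ∈ ℚ / ℤ`, which are additive in
both variables (in the intended use `T = A ⊗ ℚ / ℤ`). -/
def IsTensor {A T : Type} [AddCommGroup A] [AddCommGroup T] (t : A → QZ → T) : Prop :=
  (∀ z w c, t (z + w) c = t z c + t w c) ∧ (∀ z c d, t z (c + d) = t z c + t z d) ∧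
    AddSubgroup.closure {x | ∃ z c, t z c = x} = ⊤

end Pool.Agent.V7H82.NR
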