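import Pool.Agent.V7H82.LR.ClsDefs
import Pool.Agent.V7H82.NR.Tens

/-!
# Chow groups of abelian varieties over finite fields and unramified cohomology: definitions
-/

set_option autoImplicit false

namespace Pool.Agent.V7H82.NR

open Module Pool.Agent.W495.TA Pool.Agent.V7H82.LR

noncomputable section

/-- The scalar multiplication `r • x`. -/
def dot {R M : Type} [Ring R] [AddCommGroup M] [Module R M] (r : R) (x : M) : M := r • x

/-- The linear combination `c • x + y`. -/
def lin {Ω H : Type} [Field Ω] [AddCommGroup H] [Module Ω H] (c : Ω) (x y : H) : H := c • x + y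

/-- The number `q ^ n`, where the abelian variety `Y` is defined over the field with `q = p ^ a`
elements. -/
def qpow {p : ℕ} [Fact p.Prime] {ν : PadicAlgCl p ≃+* ℂ} (Y : RedAV p ν) (n : ℕ) : ℕ :=
  (p ^ Y.a) ^ n

/-- The Chow group of cycles of codimension `n` on the abelian variety `Y` over the field with
`q = p ^ a` elements, with rational coefficients, and the known facts on it:

* `H` is the cohomology group `H^(2 n)` with coefficients in `Ω`, by `φ` isomorphic to the space of
  alternating forms in `2 n` variables on the Tate module; `A` is `CH^n(Y)_ℚ`; `R` is the ring of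
  endomorphisms of the Chow motive `h^(2 n)(Y)` (Deninger, Murre), with its actions on `H` and on `A`
  (here `CH^n(h^(2 n)(Y)) = CH^n(Y)_ℚ`, a theorem of Soulé and Künnemann over finite fields);
* homologically trivial endomorphisms are nilpotent (Kimura); `frob` is the Frobenius endomorphism,
  it acts on `H` through the Frobenius endomorphism of the Tate module and on `A` as multiplication
  by `q ^ n`;
* `cl` is the cycle class, `pd` is the nondegenerate pairing `x ∪ y ∪ L ^ (dim Y - 2 n)`, where `L` is
  the class of a polarization (hard Lefschetz; `n ≤ dim Y / 2`), `num` is the corresponding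
  intersection number and `ext z w` is the correspondence `z × (w L ^ (dim Y - 2 n))`;
* the classes which are algebraic over an algebraic closure (`Alg`) and fixed by Frobenius are
  linear combinations of classes of cycles on `Y`. -/
structure ChowData {p : ℕ} [Fact p.Prime] {ν : PadicAlgCl p ≃+* ℂ} (Ω : Type) [Field Ω]
    [CharZero Ω] (Y : RedAV p ν) (n : ℕ) where
  H : Type
  A : Type
  R : Type
  [groupH : AddCommGroup H]
  [moduleH : Module Ω H]
  [groupA : AddCommGroup A]
  [ring : Ring R]
  [algebra : Algebra ℚ R]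
  [coh : Module R H]
  [act : Module R A]
  coh_linear : ∀ (r : R) (c : Ω) (x y : H), dot r (lin c x y) = lin c (dot r x) (dot r y)
  φ : Cls Ω Y n → H
  bijective : Function.Bijective φ
  linear : ∀ c f g h, IsComb c f g h → φ h = lin c (φ f) (φ g)
  nilpotent : ∀ r : R, (∀ x : H, dot r x = 0) → IsNilpotent r
  frob : R
  frob_coh : ∀ f g, IsPullF f g → dot frob (φ f) = φ g
  frob_act : ∀ z : A, dot frob z = qpow Y n • z
  cl : A → H
  cl_add : ∀ z w, cl (z + w) = cl z + cl w
  cl_frob : ∀ z, dot frob (cl z) = qpow Y n • cl z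
  pd : H → H → Ω
  pd_linear : ∀ c x y z, pd (lin c x y) z = c * pd x z + pd y z
  pd_symm : ∀ x y, pd x y = pd y x
  pd_nondeg : ∀ x, (∀ y, pd x y = 0) → x = 0
  pd_frob : ∀ x y, pd (dot frob x) (dot frob y) = ((qpow Y n * qpow Y n : ℕ) : Ω) * pd x y
  num : A → A → ℚ
  num_eq : ∀ z w, (num z w : Ω) = pd (cl z) (cl w)
  ext : A → A → R
  ext_coh : ∀ z w x, dot (ext z w) x = lin (pd x (cl w)) (cl z) 0
  ext_act : ∀ z w x, dot (ext z w) x = dot (algebraMap ℚ R (num x w)) z
  alg : ∀ f, Alg Ω Y (Fin (2 * n)) f → dot frob (φ f) = qpow Y n • φ f →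
    φ f ∈ Submodule.span Ω (Set.range cl)

attribute [instance] ChowData.groupH ChowData.moduleH ChowData.groupA ChowData.ring
  ChowData.algebra ChowData.coh ChowData.act

/-- A smooth projective variety `X` over a finite field `k` which is dominated by the abelian variety
`Y` (a morphism, or a dominant rational map, or a correspondence, from `Y` to `X`, defined over
the finite extension `k'` of `k` over which `Y` is defined), and its unramified cohomology:

* `CH = CH²(X)` and `CH' = CH^(dim X - 2)(X)` with integral coefficients, and the intersection numbers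
  `deg`; the pull-back to `Y` has a torsion kernel, and the intersection numbers of the pull-backs
  with `w L ^ (dim Y - 4)`, `w ∈ CH²(Y)_ℚ`, are up to a factor those with a cycle on `X` (the projection
  formula);
* the exact sequence
  `H³_et(X, ℚ/ℤ(2)) → H³_nr(X, ℚ/ℤ(2)) → T = CH²(X) ⊗ ℚ/ℤ → H⁴_et(X, ℚ/ℤ(2))`
  (Bloch, Ogus, Merkurjev, Suslin), where the first group is finite (Colliot-Thélène, Sansuc,
  Soulé, Gabber, Gros, Suwa), and the cup product with the classes of the cycles in `CH'`. -/
structure UnramifiedData {p : ℕ} [Fact p.Prime] {ν : PadicAlgCl p ≃+* ℂ} {Ω : Type} [Field Ω]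
    [CharZero Ω] {Y : RedAV p ν} (D : ChowData Ω Y 2) where
  CH : Type
  CH' : Type
  H3 : Type
  Nr : Type
  T : Type
  H4 : Type
  [group : AddCommGroup CH]
  [groupNr : AddCommGroup Nr]
  [groupT : AddCommGroup T]
  [group4 : AddCommGroup H4]
  deg : CH → CH' → ℤ
  deg_add : ∀ z z' w, deg (z + z') w = deg z w + deg z' w
  pull : CH → D.A
  pull_torsion : ∀ z, pull z = 0 → ∃ m : ℕ, 0 < m ∧ m • z = 0
  push : ∀ w : D.A, ∃ (m : ℕ) (w' : CH'), 0 < m ∧ ∀ z, (deg z w' : ℚ) = m * D.num (pull z) w
  finite : Finite H3
  res : H3 → Nr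
  t : CH → QZ → T
  tensor : IsTensor t
  δ : Nr →+ T
  cyc : T →+ H4
  exact : ∀ x, δ x = 0 → ∃ y, res y = x
  exact' : ∀ x, cyc (δ x) = 0
  cup : CH' → H4 →+ QZ
  cup_cyc : ∀ w' z c, cup w' (cyc (t z c)) = deg z w' • c

attribute [instance] UnramifiedData.group UnramifiedData.groupNr UnramifiedData.groupT
  UnramifiedData.group4

end

end Pool.Agent.V7H82.NR
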