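import Pool.Agent.V7H82.LR.Cover
import Pool.Agent.V7H82.NR.Lat
import Pool.Agent.V7H82.NR.Defs

/-!
# Rational and numerical equivalence coincide
-/

set_option autoImplicit false
set_option linter.unusedSectionVars false
set_option linter.unusedVariables false

namespace Pool.Agent.V7H82.NR

open NumberField Pool.Agent.H204R3.CM Pool.Agent.W547.KB Pool.Agent.W547.LD Module
  Pool.Agent.W495.TA Pool.Agent.TH117.BL Pool.Agent.N202.QR Pool.Agent.V7H82.LR
open scoped TensorProduct

noncomputable section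

theorem finite_forms (Ω M : Type) [Field Ω] [AddCommGroup M] [Module Ω M] [Module.Finite Ω M]
    (n : ℕ) : Module.Finite Ω (M [⋀^Fin n]→ₗ[Ω] Ω) := by
  refine Module.Finite.of_injective (N := MultilinearMap Ω (fun _ : Fin n => M) Ω)
    (AlternatingMap.toMultilinearMapLM (R := Ω) (S := Ω)) ?_
  intro f g h
  exact AlternatingMap.coe_multilinearMap_injective h

section minpoly

variable {Ω : Type} [Field Ω] [CharZero Ω]

theorem minpoly_eval_ne {l : Ω} (hl : IsIntegral ℚ l) {c : ℚ} (hc : l ≠ (c : Ω)) :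
    (minpoly ℚ l).eval c ≠ 0 := by
  intro h
  have h1 : (minpoly ℚ l).degree = 1 :=
    Polynomial.degree_eq_one_of_irreducible_of_root (minpoly.irreducible hl) h
  have h2 := minpoly.monic hl
  have h3 := h2.eq_X_add_C (Polynomial.natDegree_eq_of_degree_eq_some h1)
  have h4 := minpoly.aeval ℚ l
  rw [h3] at h4 h
  rw [map_add, Polynomial.aeval_X, Polynomial.aeval_C] at h4
  rw [Polynomial.eval_add, Polynomial.eval_X, Polynomial.eval_C] at h
  apply hc
  rw [eq_neg_of_add_eq_zero_left h4, eq_neg_of_add_eq_zero_left h, ← map_neg]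
  simp

end minpoly

section

variable {p : ℕ} [Fact p.Prime] {ν : PadicAlgCl p ≃+* ℂ}
  {Ω : Type} [Field Ω] [CharZero Ω] {L : Type} [Field L] [NumberField L] {jO : L →+* Ω}
  {Y : RedAV p ν}

/-- A rational polynomial which splits off the eigenvalue `c` of Frobenius. -/
theorem exists_poly {j : L →+* ℂ} (hY : Big Y.X j) (jO : L →+* Ω) (n : ℕ) (c : ℚ) :
    ∃ P : Polynomial ℚ, P.eval c ≠ 0 ∧ ∀ f : (TM Ω Y) [⋀^Fin n]→ₗ[Ω] Ω,
      frobOp Y 1 (Fin n) (Polynomial.aeval (frobOp (Ω := Ω) Y 1 (Fin n))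
        (P.map (algebraMap ℚ Ω)) f) = (c : Ω) • Polynomial.aeval (frobOp (Ω := Ω) Y 1 (Fin n))
        (P.map (algebraMap ℚ Ω)) f := by
  classical
  have hfin := Pool.Agent.W67.TA.finite_wt j hY
  let _ : Fintype (Wt Y.X L) := Fintype.ofFinite _
  obtain ⟨e, h1, h2⟩ := Pool.Agent.W67.TA.basis p ν Ω L j jO Y hY
  let S : Finset Ω := (Finset.univ.image fun I : Fin n → Wt Y.X L => ev jO 1 I).erase (c : Ω)
  have hint : ∀ I : Fin n → Wt Y.X L, IsIntegral ℚ (ev jO 1 I) := by
    intro I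
    unfold Pool.Agent.V7H82.LR.ev
    refine IsIntegral.prod _ fun k _ => IsIntegral.pow ?_ _
    have h3 : IsIntegral ℚ ((I k).2 (Y.π (I k).1)) := Algebra.IsIntegral.isIntegral _
    exact h3.map jO.toRatAlgHom
  refine ⟨∏ l ∈ S, minpoly ℚ l, ?_, fun f => ?_⟩
  · rw [Polynomial.eval_prod]
    refine Finset.prod_ne_zero_iff.2 fun l hl => ?_
    obtain ⟨h3, h4⟩ := Finset.mem_erase.1 hl
    obtain ⟨I, -, rfl⟩ := Finset.mem_image.1 h4
    exact minpoly_eval_ne (hint I) h3
  · have h3 : Polynomial.aeval (frobOp (Ω := Ω) Y 1 (Fin n)) ((Polynomial.X - Polynomial.C (c : Ω)) *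
        (∏ l ∈ S, minpoly ℚ l).map (algebraMap ℚ Ω)) = 0 := by
      refine aeval_prod e h1 h2 1 _ fun I => ?_
      rw [Polynomial.eval_mul, mul_eq_zero]
      by_cases h3 : ev jO 1 I = c
      · left
        rw [h3, Polynomial.eval_sub, Polynomial.eval_X, Polynomial.eval_C, sub_self]
      · right
        rw [Polynomial.eval_map, Polynomial.eval₂_finsetProd]
        refine Finset.prod_eq_zero (Finset.mem_erase.2 ⟨h3, Finset.mem_image_of_mem _
          (Finset.mem_univ I)⟩) ?_
        exact minpoly.aeval ℚ _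
    have h4 := congrArg (fun A => A f) h3
    simp only [map_mul, map_sub, Polynomial.aeval_X, Polynomial.aeval_C] at h4
    exact sub_eq_zero.1 h4

end

end

end Pool.Agent.V7H82.NR
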