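import Pool.Agent.V7H82.NR.Core
import Pool.Agent.V7H82.NR.Rat

/-!
# Rational and numerical equivalence coincide, and unramified cohomology is finite
-/

set_option autoImplicit false
set_option linter.unusedSectionVars false
set_option linter.unusedVariables false

namespace Pool.Agent.V7H82.NR

open NumberField Pool.Agent.H204R3.CM Pool.Agent.W547.KB Pool.Agent.W547.LD Module
  Pool.Agent.W495.TA Pool.Agent.TH117.BL Pool.Agent.N202.QR Pool.Agent.V7H82.LR
open scoped TensorProduct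

noncomputable section

/-- **Rational and numerical equivalence coincide**: a cycle class of codimension `n` is determined
by finitely many intersection numbers. -/
theorem rat_num {p : ℕ} [Fact p.Prime] {ν : PadicAlgCl p ≃+* ℂ} {r : ℕ} (Z : RedAV p ν)
    (hrel : HasElementaryUpTo r Z) (Ω : Type) [Field Ω] [IsAlgClosed Ω] [CharZero Ω]
    (Y : RedAV p ν) (hY : IsPowersTimesSupersingular Z Y) (n : ℕ)
    (hn : n ≤ r ∨ finrank ℚ Y.X.H1 ≤ 2 * (n + r)) (D : ChowData Ω Y n) :
    ∃ J : Finset D.A, ∀ z, (∀ w ∈ J, D.num z w = 0) → z = 0 := by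
  obtain ⟨L, _, _, _, _, j, hj⟩ := exists_cm ((Y.X.prod Z.X).prod (single (kp p)))
  have hYj : Big Y.X j := fun i ψ => hj (Sum.inl (Sum.inl i)) ψ
  let jO : L →+* Ω := ((IsAlgClosed.lift : L →ₐ[ℚ] Ω) : L →+* Ω)
  -- the structure without abbreviations
  have hlin : ∀ c f g h, IsComb c f g h → D.φ h = c • D.φ f + D.φ g := D.linear
  have hfa : ∀ z : D.A, D.frob • z = (p ^ Y.a) ^ n • z := D.frob_act
  have hcf : ∀ z : D.A, D.frob • D.cl z = (p ^ Y.a) ^ n • D.cl z := D.cl_frob
  have hpl : ∀ (c : Ω) (x y z : D.H), D.pd (c • x + y) z = c * D.pd x z + D.pd y z := D.pd_linear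
  have hpf : ∀ x y : D.H, D.pd (D.frob • x) (D.frob • y) =
    (((p ^ Y.a) ^ n * (p ^ Y.a) ^ n : ℕ) : Ω) * D.pd x y := D.pd_frob
  have hec : ∀ (z w : D.A) (x : D.H), D.ext z w • x = D.pd x (D.cl w) • D.cl z := fun z w x => by
    have h1 : D.ext z w • x = D.pd x (D.cl w) • D.cl z + 0 := D.ext_coh z w x
    rw [h1, add_zero]
  have hcl' : ∀ (r : D.R) (c : Ω) (x y : D.H), r • (c • x + y) = c • (r • x) + r • y :=
    D.coh_linear
  have hcomm : SMulCommClass D.R Ω D.H := ⟨fun r c x => by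
    have h1 := hcl' r c x 0
    rwa [smul_zero, add_zero, add_zero] at h1⟩
  have hcomm' : SMulCommClass Ω D.R D.H := SMulCommClass.symm _ _ _
  -- the isomorphism
  have h0 : D.φ (0 : (TM Ω Y) [⋀^Fin (2 * n)]→ₗ[Ω] Ω) = 0 := by
    have h1 := hlin 1 (0 : (TM Ω Y) [⋀^Fin (2 * n)]→ₗ[Ω] Ω)
      (0 : (TM Ω Y) [⋀^Fin (2 * n)]→ₗ[Ω] Ω) (0 : (TM Ω Y) [⋀^Fin (2 * n)]→ₗ[Ω] Ω) (fun v => by
        change (0 : Ω) = 1 * 0 + 0
        rw [mul_zero, add_zero])
    rw [one_smul] at h1
    exact left_eq_add.1 h1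
  let φ : ((TM Ω Y) [⋀^Fin (2 * n)]→ₗ[Ω] Ω) →ₗ[Ω] D.H :=
    { toFun := D.φ
      map_add' := fun f g => by
        have h1 := hlin 1 f g (f + g) fun v => by
          change f v + g v = 1 * f v + g v
          rw [one_mul]
        rw [h1, one_smul]
      map_smul' := fun c f => by
        have h1 := hlin c f (0 : (TM Ω Y) [⋀^Fin (2 * n)]→ₗ[Ω] Ω) (c • f) fun v => by
          change c * f v = c * f v + 0
          rw [add_zero]
        rw [h1, h0, add_zero]
        rfl }
  have hφ : ∀ f, D.φ f = φ f := fun f => rfl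
  have hsurj : Function.Surjective φ := D.bijective.2
  have hinj : Function.Injective φ := D.bijective.1
  have hfin0 := finite_forms Ω (TM Ω Y) (2 * n)
  have hfin : Module.Finite Ω D.H := Module.Finite.of_surjective φ hsurj
  have hT : ∀ f, (Module.toModuleEnd Ω D.H D.frob) (φ f) = φ (frobOp Y 1 _ f) := fun f =>
    D.frob_coh f (frobOp Y 1 _ f) fun v => rfl
  have hTQ : ∀ (Q : Polynomial Ω) (f : (TM Ω Y) [⋀^Fin (2 * n)]→ₗ[Ω] Ω),
      Polynomial.aeval ((Module.toModuleEnd Ω D.H D.frob)) Q (φ f) = φ (Polynomial.aeval (frobOp Y 1 _) Q f) := by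
    intro Q f
    induction Q using Polynomial.induction_on' with
    | add Q Q' h h' =>
      rw [map_add, map_add, LinearMap.add_apply, LinearMap.add_apply, map_add, h, h']
    | monomial m a =>
      rw [Polynomial.aeval_monomial, Polynomial.aeval_monomial]
      have h2 : ∀ m : ℕ, ((Module.toModuleEnd Ω D.H D.frob) ^ m) (φ f) = φ ((frobOp Y 1 _ ^ m) f) := by
        intro m
        induction m with
        | zero => rfl
        | succ m ih =>
          rw [pow_succ', pow_succ']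
          change (Module.toModuleEnd Ω D.H D.frob) (((Module.toModuleEnd Ω D.H D.frob) ^ m) (φ f)) = _
          rw [ih, hT]
          rfl
      change a • ((Module.toModuleEnd Ω D.H D.frob) ^ m) (φ f) = φ (a • (frobOp Y 1 _ ^ m) f)
      rw [h2, map_smul]
  set μ : ℚ := ((p : ℚ) ^ Y.a) ^ n with hμ
  have hcast : (μ : Ω) = ((p : Ω) ^ Y.a) ^ n := by
    rw [hμ]
    push_cast
    rfl
  have hp0 : (p : ℚ) ≠ 0 := Nat.cast_ne_zero.2 (Fact.out : p.Prime).ne_zero
  obtain ⟨P, hP1, hP2⟩ := exists_poly (Ω := Ω) (Y := Y) hYj jO (2 * n) μ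
  let _ : Module ℚ D.A := Module.compHom D.A (algebraMap ℚ D.R)
  have hsm : ∀ (c : ℚ) (z : D.A), c • z = algebraMap ℚ D.R c • z := fun c z => rfl
  have hcm : SMulCommClass D.R ℚ D.A := ⟨fun r c z => by
    rw [hsm, hsm, smul_smul, smul_smul, Algebra.commutes]⟩
  have hnat : (((p ^ Y.a) ^ n : ℕ) : Ω) = (μ : Ω) := by
    rw [hcast]
    push_cast
    rfl
  have hnatQ : (((p ^ Y.a) ^ n : ℕ) : ℚ) = μ := by
    rw [hμ]
    push_cast
    rfl
  have hcl0 : D.cl 0 = 0 := by
    have h1 := D.cl_add 0 0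
    rw [add_zero] at h1
    exact left_eq_add.1 h1
  let cl : D.A →+ D.H :=
    { toFun := D.cl
      map_zero' := hcl0
      map_add' := D.cl_add }
  have hpd0 : ∀ y, D.pd 0 y = 0 := by
    intro y
    have h1 := hpl 1 0 0 y
    rw [one_smul, add_zero, one_mul] at h1
    exact left_eq_add.1 h1
  have hpda : ∀ x x' y, D.pd (x + x') y = D.pd x y + D.pd x' y := by
    intro x x' y
    have h1 := hpl 1 x x' y
    rwa [one_smul, one_mul] at h1
  have hpdc : ∀ (c : Ω) x y, D.pd (c • x) y = c * D.pd x y := by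
    intro c x y
    have h1 := hpl c x 0 y
    rwa [add_zero, hpd0, add_zero] at h1
  let pd : D.H →ₗ[Ω] D.H →ₗ[Ω] Ω := LinearMap.mk₂ Ω D.pd hpda hpdc
    (fun x y y' => by rw [D.pd_symm, hpda, D.pd_symm y, D.pd_symm y'])
    (fun c x y => by rw [D.pd_symm, hpdc, D.pd_symm y, smul_eq_mul])
  have hpd : ∀ x y, pd x y = D.pd x y := fun x y => rfl
  have hnumS : ∀ z w, D.num z w = D.num w z := by
    intro z w
    have h1 : (D.num z w : Ω) = D.num w z := by rw [D.num_eq, D.num_eq, D.pd_symm]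
    exact_mod_cast h1
  have hnuma : ∀ z z' w, D.num (z + z') w = D.num z w + D.num z' w := by
    intro z z' w
    have h1 : (D.num (z + z') w : Ω) = D.num z w + D.num z' w := by
      rw [D.num_eq, D.num_eq, D.num_eq, D.cl_add, hpda]
    exact_mod_cast h1
  let numL : D.A → (D.A →+ ℚ) := fun w =>
    { toFun := fun z => D.num z w
      map_zero' := by
        have h1 := hnuma 0 0 w
        rw [add_zero] at h1
        exact left_eq_add.1 h1
      map_add' := fun z z' => hnuma z z' w }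
  have hnumc : ∀ (c : ℚ) z w, D.num (c • z) w = c * D.num z w := by
    intro c z w
    exact map_rat_smul (numL w) c z
  let num : D.A →ₗ[ℚ] D.A →ₗ[ℚ] ℚ := LinearMap.mk₂ ℚ D.num hnuma hnumc
    (fun x y y' => by rw [hnumS, hnuma, hnumS y, hnumS y'])
    (fun c x y => by rw [hnumS, hnumc, hnumS y, smul_eq_mul])
  refine core (num := num) (Module.toModuleEnd Ω D.H (S := D.R)) (Module.toModuleEnd ℚ D.A (S := D.R))
    (fun r hr => D.nilpotent r fun x => LinearMap.congr_fun hr x) D.frob μ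
    (pow_ne_zero _ (pow_ne_zero _ hp0))
    (fun z => by
      change D.frob • z = μ • z
      rw [hfa, ← hnatQ, Nat.cast_smul_eq_nsmul]) cl
    (fun z => by
      change D.frob • D.cl z = (μ : Ω) • D.cl z
      rw [hcf, ← hnat, Nat.cast_smul_eq_nsmul]) pd (fun x y => D.pd_symm x y) D.pd_nondeg
    (fun x y => by
      change D.pd (D.frob • x) (D.frob • y) = _
      rw [hpf, ← hnat]
      push_cast
      rfl) (fun z w => D.num_eq z w) D.ext (fun z w x => hec z w x)
    (fun z w x => D.ext_act z w x) P hP1 (fun x => ?_) fun x hx => ?_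
  · obtain ⟨f, rfl⟩ := hsurj x
    rw [hTQ, hT, hP2, map_smul]
  · obtain ⟨f, rfl⟩ := hsurj x
    have h3 : frobOp Y 1 _ f = (μ : Ω) • f := by
      apply hinj
      rw [map_smul, ← hx, hT]
    have hf : IsTateClass Ω Y 1 n f := by
      intro v
      rw [mul_one, ← hcast]
      have h4 := congrArg (fun g : (TM Ω Y) [⋀^Fin (2 * n)]→ₗ[Ω] Ω => g v) h3
      exact h4
    refine D.alg f (tate_dim Z hrel Ω Y hY 1 n one_pos hn f hf) ?_
    change D.frob • φ f = (p ^ Y.a) ^ n • φ f
    rw [← Nat.cast_smul_eq_nsmul Ω, hnat]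
    exact hx

/-- **Finiteness of unramified cohomology of degree three.** -/
theorem finite_unramified {p : ℕ} [Fact p.Prime] {ν : PadicAlgCl p ≃+* ℂ} (Z : RedAV p ν)
    (hrel : HasElementaryUpTo 2 Z) (Ω : Type) [Field Ω] [IsAlgClosed Ω] [CharZero Ω]
    (Y : RedAV p ν) (hY : IsPowersTimesSupersingular Z Y) (D : ChowData Ω Y 2)
    (X : UnramifiedData D) : Finite X.Nr := by
  classical
  obtain ⟨J, hJ⟩ := rat_num Z hrel Ω Y hY 2 (Or.inl le_rfl) D
  choose m w hm hw using fun v : J => X.push v.1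
  let φ : J → X.CH →+ ℤ := fun v =>
    { toFun := fun z => X.deg z (w v)
      map_zero' := by
        have h1 := X.deg_add 0 0 (w v)
        rw [add_zero] at h1
        exact left_eq_add.1 h1
      map_add' := fun z z' => X.deg_add z z' (w v) }
  have h1 := finite_ker φ (fun z hz => by
      refine X.pull_torsion z (hJ _ fun v hv => ?_)
      have h2 := hw ⟨v, hv⟩ z
      have h3 : X.deg z (w ⟨v, hv⟩) = 0 := hz ⟨v, hv⟩
      rw [h3, Int.cast_zero] at h2
      rcases mul_eq_zero.1 h2.symm with h4 | h4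
      · exact absurd h4 (Nat.cast_ne_zero.2 (hm _).ne')
      · exact h4)
    X.t X.tensor (fun v : J => (X.cup (w v)).comp X.cyc) fun v z t => X.cup_cyc _ _ _
  have h2 : (Set.range X.δ).Finite := by
    refine h1.subset ?_
    rintro _ ⟨x, rfl⟩ v
    change X.cup (w v) (X.cyc (X.δ x)) = 0
    rw [X.exact', map_zero]
  have h3 : Finite X.δ.range := h2
  have h4 : (X.δ.ker : Set X.Nr).Finite := by
    have := X.finite
    refine (Set.finite_range X.res).subset fun x hx => ?_
    obtain ⟨y, hy⟩ := X.exact x hx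
    exact ⟨y, hy⟩
  have h5 : Finite X.δ.ker := h4
  have h6 : Finite (X.Nr ⧸ X.δ.ker) :=
    Finite.of_equiv _ (QuotientAddGroup.quotientKerEquivRange X.δ).symm.toEquiv
  exact Finite.of_equiv _ (AddSubgroup.addGroupEquivQuotientProdAddSubgroup (s := X.δ.ker)).symm

end

end Pool.Agent.V7H82.NR
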