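import Mathlib

/-!
# Rational and numerical equivalence coincide: the linear algebra
-/

set_option autoImplicit false

namespace Pool.Agent.V7H82.NR

open Module Polynomial

/-- If the eigenspace of Frobenius in the cohomology is spanned by classes of cycles and
homologically trivial correspondences are nilpotent then cycles are determined by finitely many
intersection numbers. -/
theorem core {Ω H A R : Type} [Field Ω] [CharZero Ω] [AddCommGroup H] [Module Ω H]
    [Module.Finite Ω H] [AddCommGroup A] [Module ℚ A] [Ring R] [Algebra ℚ R]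
    (coh : R →+* End Ω H) (act : R →+* End ℚ A) (nil : ∀ r, coh r = 0 → IsNilpotent r)
    (frob : R) (μ : ℚ) (hμ : μ ≠ 0) (frob_act : ∀ z, act frob z = μ • z) (cl : A →+ H)
    (cl_frob : ∀ z, coh frob (cl z) = (μ : Ω) • cl z) (pd : H →ₗ[Ω] H →ₗ[Ω] Ω)
    (symm : ∀ x y, pd x y = pd y x) (nondeg : ∀ x, (∀ y, pd x y = 0) → x = 0)
    (pd_frob : ∀ x y, pd (coh frob x) (coh frob y) = (μ : Ω) * μ * pd x y)
    (num : A →ₗ[ℚ] A →ₗ[ℚ] ℚ) (num_eq : ∀ z w, ((num z w : ℚ) : Ω) = pd (cl z) (cl w))
    (ext : A → A → R) (ext_coh : ∀ z w x, coh (ext z w) x = pd x (cl w) • cl z)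
    (ext_act : ∀ z w x, act (ext z w) x = num x w • z) (P : Polynomial ℚ) (hP : P.eval μ ≠ 0)
    (hPT : ∀ x, coh frob (aeval (coh frob) (P.map (algebraMap ℚ Ω)) x) =
      (μ : Ω) • aeval (coh frob) (P.map (algebraMap ℚ Ω)) x)
    (hspan : ∀ x, coh frob x = (μ : Ω) • x → x ∈ Submodule.span Ω (Set.range cl)) :
    ∃ J : Finset A, ∀ z, (∀ w ∈ J, num z w = 0) → z = 0 := by
  classical
  set T := coh frob with hT
  set E := aeval T (P.map (algebraMap ℚ Ω)) with hE
  set c : ℚ := P.eval μ with hc
  have hμ' : (μ : Ω) ≠ 0 := Rat.cast_ne_zero.2 hμ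
  have hc' : (c : Ω) ≠ 0 := Rat.cast_ne_zero.2 hP
  have hceval : (P.map (algebraMap ℚ Ω)).eval (μ : Ω) = (c : Ω) := by
    rw [Polynomial.eval_map, hc, Polynomial.eval₂_eq_sum_range, Polynomial.eval_eq_sum_range]
    push_cast
    rfl
  -- `E` on the eigenspace
  have hEV : ∀ x, T x = (μ : Ω) • x → E x = (c : Ω) • x := by
    intro x hx
    rw [hE, Module.End.aeval_apply_of_mem_apply_eq_smul hx, hceval]
  -- the pairing
  have hpdT : ∀ x y, T y = (μ : Ω) • y → pd (T x) y = (μ : Ω) * pd x y := by
    intro x y hy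
    have h1 := pd_frob x y
    rw [hy, map_smul, smul_eq_mul] at h1
    apply mul_left_cancel₀ hμ'
    rw [h1]
    ring
  have hpdE : ∀ x y, T y = (μ : Ω) • y → pd (E x) y = (c : Ω) * pd x y := by
    intro x y hy
    have h1 : ∀ Q : Polynomial Ω, pd (aeval T Q x) y = Q.eval (μ : Ω) * pd x y := by
      intro Q
      induction Q using Polynomial.induction_on' with
      | add Q Q' h h' =>
        rw [map_add, LinearMap.add_apply, map_add, LinearMap.add_apply, h, h', Polynomial.eval_add,
          add_mul]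
      | monomial n a =>
        rw [aeval_monomial, Polynomial.eval_monomial]
        have h2 : ∀ n : ℕ, pd ((T ^ n) x) y = (μ : Ω) ^ n * pd x y := by
          intro n
          induction n with
          | zero => simp
          | succ n ih =>
            rw [pow_succ']
            change pd (T ((T ^ n) x)) y = _
            rw [hpdT _ _ hy, ih]
            ring
        change pd (a • ((T ^ n) x)) y = _
        rw [map_smul, LinearMap.smul_apply, h2, smul_eq_mul]
        ring
    rw [hE, h1, hceval]
  -- separation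
  have hsep : ∀ x, T x = (μ : Ω) • x → (∀ w, pd x (cl w) = 0) → x = 0 := by
    intro x hx h
    refine nondeg x fun y => ?_
    have h1 : ∀ y ∈ Submodule.span Ω (Set.range cl), pd x y = 0 := by
      intro y hy
      induction hy using Submodule.span_induction with
      | mem y hy =>
        obtain ⟨w, rfl⟩ := hy
        exact h w
      | zero => exact map_zero _
      | add y y' _ _ h h' => rw [map_add, h, h', add_zero]
      | smul a y _ h => rw [map_smul, h, smul_zero]
    have h2 := hpdE y x hx
    rw [symm, h1 _ (hspan _ (hPT y))] at h2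
    rw [symm]
    rcases mul_eq_zero.1 h2.symm with h3 | h3
    · exact absurd h3 hc'
    · exact h3
  -- finitely many cycles
  obtain ⟨S, hS1, hS2⟩ := (Submodule.fg_span_iff_fg_span_finset_subset (R := Ω)
    (Set.range cl)).1 (IsNoetherian.noetherian _)
  have h3 : ∀ y : S, ∃ w : A, cl w = y := fun y => hS1 y.2
  choose w hw using h3
  refine ⟨Finset.univ.image w, fun z hz => ?_⟩
  have hz' : ∀ y : S, num z (w y) = 0 := fun y => hz _ (Finset.mem_image_of_mem _
    (Finset.mem_univ y))
  have hnum : ∀ z, (∀ y : S, num z (w y) = 0) → cl z = 0 := by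
    intro z hz
    refine hsep _ (cl_frob z) fun v => ?_
    have h4 : ∀ y ∈ Submodule.span Ω (S : Set H), pd (cl z) y = 0 := by
      intro y hy
      induction hy using Submodule.span_induction with
      | mem y hy =>
        have h5 : pd (cl z) (cl (w ⟨y, hy⟩)) = 0 := by
          rw [← num_eq, hz, Rat.cast_zero]
        rwa [hw] at h5
      | zero => exact map_zero _
      | add y y' _ _ h h' => rw [map_add, h, h', add_zero]
      | smul a y _ h => rw [map_smul, h, smul_zero]
    refine h4 _ ?_
    rw [← hS2]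
    exact Submodule.subset_span ⟨v, rfl⟩
  -- the generalized inverse
  let Φ : A →ₗ[ℚ] (S → ℚ) := LinearMap.pi fun y => num.flip (w y)
  have hΦ : ∀ z y, Φ z y = num z (w y) := fun z y => rfl
  obtain ⟨σ₀, hσ₀⟩ := Φ.rangeRestrict.exists_rightInverse_of_surjective Φ.range_rangeRestrict
  obtain ⟨σ, hσ⟩ := LinearMap.exists_extend σ₀
  have hσΦ : ∀ z, Φ (σ (Φ z)) = Φ z := by
    intro z
    have h5 : σ (Φ z) = σ₀ ⟨Φ z, z, rfl⟩ := LinearMap.congr_fun hσ ⟨Φ z, z, rfl⟩
    rw [h5]
    exact congrArg Subtype.val (LinearMap.congr_fun hσ₀ ⟨Φ z, z, rfl⟩)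
  let v : S → A := fun y => σ (Pi.single y 1)
  have hv : ∀ z, ∑ y, num z (w y) • v y = σ (Φ z) := by
    intro z
    conv_rhs => rw [← Finset.univ_sum_single (Φ z), map_sum]
    refine Finset.sum_congr rfl fun y _ => ?_
    have h6 : (Pi.single y (Φ z y) : S → ℚ) = Φ z y • Pi.single y (1 : ℚ) := by
      rw [← Pi.single_smul, smul_eq_mul, mul_one]
    rw [h6, map_smul]
    rfl
  let B : R := ∑ y, ext (v y) (w y)
  have hBcoh : ∀ x, coh B x = ∑ y : S, pd x (cl (w y)) • cl (v y) := by
    intro x
    rw [map_sum, LinearMap.sum_apply]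
    exact Finset.sum_congr rfl fun y _ => ext_coh _ _ _
  have hBact : ∀ z, act B z = ∑ y : S, num z (w y) • v y := by
    intro x
    rw [map_sum, LinearMap.sum_apply]
    exact Finset.sum_congr rfl fun y _ => ext_act _ _ _
  have hclsmul : ∀ (a : ℚ) (z : A), cl (a • z) = (a : Ω) • cl z := by
    intro a z
    have h7 : ∀ (n : ℕ) (x : A), cl ((n : ℚ) • x) = (n : Ω) • cl x := by
      intro n x
      rw [Nat.cast_smul_eq_nsmul, map_nsmul, Nat.cast_smul_eq_nsmul]
    have h8 : ∀ (n : ℤ) (x : A), cl ((n : ℚ) • x) = (n : Ω) • cl x := by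
      intro n x
      rw [Int.cast_smul_eq_zsmul, map_zsmul, Int.cast_smul_eq_zsmul]
    have h9 : (a.den : Ω) ≠ 0 := Nat.cast_ne_zero.2 a.den_ne_zero
    have h10 : (a.den : Ω) • cl (a • z) = (a.den : Ω) • ((a : Ω) • cl z) := by
      rw [← h7, smul_smul, smul_smul]
      have h11 : (a.den : ℚ) * a = (a.num : ℚ) := by
        rw [mul_comm]
        exact Rat.mul_den_eq_num a
      have h12 : (a.den : Ω) * (a : Ω) = (a.num : Ω) := by
        have := congrArg (fun x : ℚ => (x : Ω)) h11
        push_cast at this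
        exact this
      rw [h11, h12, h8]
    exact smul_right_injective _ h9 h10
  let u : R := Polynomial.eval₂ (algebraMap ℚ R) frob P - algebraMap ℚ R c * B
  have hEcoh : coh (Polynomial.eval₂ (algebraMap ℚ R) frob P) = E := by
    rw [Polynomial.hom_eval₂, hE, Polynomial.aeval_def, Polynomial.eval₂_map]
    congr 1
    exact Subsingleton.elim _ _
  have hEact : ∀ z, act (Polynomial.eval₂ (algebraMap ℚ R) frob P) z = c • z := by
    intro z
    rw [Polynomial.hom_eval₂]
    have h4 : act.comp (algebraMap ℚ R) = algebraMap ℚ (End ℚ A) := Subsingleton.elim _ _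
    have h5 : act frob = algebraMap ℚ (End ℚ A) μ := by
      ext z
      rw [frob_act]
      rfl
    rw [h4, h5, ← Polynomial.aeval_def, Polynomial.aeval_algebraMap_apply]
    rfl
  have hccoh : coh (algebraMap ℚ R c) = algebraMap Ω (End Ω H) (c : Ω) := by
    have h4 : coh.comp (algebraMap ℚ R) = (algebraMap Ω (End Ω H)).comp (algebraMap ℚ Ω) :=
      Subsingleton.elim _ _
    exact RingHom.congr_fun h4 c
  have hcact : act (algebraMap ℚ R c) = algebraMap ℚ (End ℚ A) c := by
    have h4 : act.comp (algebraMap ℚ R) = algebraMap ℚ (End ℚ A) := Subsingleton.elim _ _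
    exact RingHom.congr_fun h4 c
  have hucoh : ∀ x, coh u x = E x - (c : Ω) • ∑ y : S, pd x (cl (w y)) • cl (v y) := by
    intro x
    rw [map_sub, map_mul, LinearMap.sub_apply, hEcoh, hccoh, ← hBcoh]
    rfl
  have huact : ∀ z, act u z = c • z - c • ∑ y : S, num z (w y) • v y := by
    intro z
    rw [map_sub, map_mul, LinearMap.sub_apply, hEact, hcact, ← hBact]
    rfl
  -- `u` is homologically trivial
  have hu1 : ∀ z, coh u (cl z) = 0 := by
    intro z
    rw [hucoh, hEV _ (cl_frob z), ← smul_sub]
    have h4 : ∑ y : S, pd (cl z) (cl (w y)) • cl (v y) = cl (σ (Φ z)) := by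
      rw [← hv, map_sum]
      refine Finset.sum_congr rfl fun y _ => ?_
      rw [hclsmul, num_eq]
    rw [h4, ← map_sub, hnum, smul_zero]
    intro y
    rw [← hΦ, map_sub, hσΦ, sub_self]
    rfl
  have hu2 : ∀ x, T x = (μ : Ω) • x → coh u x = 0 := by
    have h4 : ∀ x ∈ Submodule.span Ω (Set.range cl), coh u x = 0 := by
      intro x hx
      induction hx using Submodule.span_induction with
      | mem y hy =>
        obtain ⟨z, rfl⟩ := hy
        exact hu1 z
      | zero => exact map_zero _
      | add y y' _ _ h h' => rw [map_add, h, h', add_zero]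
      | smul a y _ h => rw [map_smul, h, smul_zero]
    intro x hx
    exact h4 x (hspan x hx)
  have hu3 : coh u = 0 := by
    ext x
    have h4 := hu2 _ (hPT x)
    rw [hucoh, hEV _ (hPT x)] at h4
    have h5 : ∑ y : S, pd (E x) (cl (w y)) • cl (v y) =
        (c : Ω) • ∑ y : S, pd x (cl (w y)) • cl (v y) := by
      rw [Finset.smul_sum]
      refine Finset.sum_congr rfl fun y _ => ?_
      rw [hpdE _ _ (cl_frob _), mul_smul]
    rw [h5, ← smul_sub] at h4
    rw [LinearMap.zero_apply, hucoh]
    rcases smul_eq_zero.1 h4 with h6 | h6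
    · exact absurd h6 hc'
    · exact h6
  obtain ⟨N, hN⟩ := nil u hu3
  have hu4 : act u z = c • z := by
    rw [huact]
    simp only [hz', zero_smul, Finset.sum_const_zero, smul_zero, sub_zero]
  have hu5 : ∀ n : ℕ, (act u ^ n) z = c ^ n • z := by
    intro n
    induction n with
    | zero => simp
    | succ n ih =>
      rw [pow_succ]
      change (act u ^ n) (act u z) = _
      rw [hu4, map_smul, ih, smul_smul, pow_succ, mul_comm]
  have hu6 := hu5 N
  rw [← map_pow, hN, map_zero, LinearMap.zero_apply] at hu6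
  rcases smul_eq_zero.1 hu6.symm with h7 | h7
  · exact absurd h7 (pow_ne_zero _ hP)
  · exact h7

end Pool.Agent.V7H82.NR
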