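import Pool.Agent.V7H82.NR.Tens
import Pool.Agent.W484.CK.Stm

/-!
# Unramified cohomology of varieties dominated by products with abelian varieties: definitions
-/

set_option autoImplicit false

open CategoryTheory AlgebraicGeometry

universe u v w

namespace Pool.Agent.V7H82.NR

open Polynomial Pool.Agent.H914 Pool.Agent.H914.VarClass Pool.Agent.H914.VarClass.Obj
  Pool.Agent.W492.BB Pool.Agent.W484.CK

/-- A smooth projective variety `X` over a finite field which is dominated by the variety `W` (possibly
over a finite extension of the field), and its unramified cohomology: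

* `CH = CH²(X)` and `CH' = CH^(dim X - 2)(X)` with integral coefficients, and the intersection numbers
  `deg`; the pull-back to `CH²(W)_ℚ` has a torsion kernel, and the intersection numbers of the
  pull-backs with a cycle `w` on `W` are up to a factor those with a cycle on `X` (the projection
  formula; `tr` is the orientation of the Weil cohomology theory `H`);
* the exact sequence
  `H³_et(X, ℚ/ℤ(2)) → H³_nr(X, ℚ/ℤ(2)) → T = CH²(X) ⊗ ℚ/ℤ → H⁴_et(X, ℚ/ℤ(2))`
  (Bloch, Ogus, Merkurjev, Suslin), where the first group is finite (Colliot-Thélène, Sansuc,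
  Soulé, Gabber, Gros, Suwa), and the cup product with the classes of the cycles in `CH'`. -/
structure UnramifiedOver {k : Type} [Field k] {𝒱 : VarClass k} {C : TheoryData.{0, 0, 0} 𝒱 ℚ}
    {K : Type} [Field K] (H : WeilTheoryData.{0, 0, 0} C K) (W : 𝒱.Obj) where
  CH : Type
  CH' : Type
  H3 : Type
  Nr : Type
  T : Type
  H4 : Type
  [group : AddCommGroup CH]
  [groupNr : AddCommGroup Nr]
  [groupT : AddCommGroup T]
  [group4 : AddCommGroup H4]
  deg : CH → CH' → ℤ
  deg_add : ∀ z z' w, deg (z + z') w = deg z w + deg z' w
  pull : CH → C.A W
  pull_deg : ∀ z, C.Deg 2 (pull z)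
  pull_torsion : ∀ z, pull z = 0 → ∃ m : ℕ, 0 < m ∧ m • z = 0
  push : ∀ (j : ℕ) (w : C.A W), 2 + j = W.dim → C.Deg j w → ∃ (c : K) (w' : CH'), c ≠ 0 ∧
    ∀ z, (deg z w' : K) = c * H.tr W (H.cl (C.mul (pull z) w))
  finite : Finite H3
  res : H3 → Nr
  t : CH → QZ → T
  tensor : IsTensor t
  δ : Nr →+ T
  cyc : T →+ H4
  exact : ∀ x, δ x = 0 → ∃ y, res y = x
  exact' : ∀ x, cyc (δ x) = 0
  cup : CH' → H4 →+ QZ
  cup_cyc : ∀ w' z c, cup w' (cyc (t z c)) = deg z w' • c

attribute [instance] UnramifiedOver.group UnramifiedOver.groupNr UnramifiedOver.groupT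
  UnramifiedOver.group4

/-- `UnramifiedForRankOver E q r f`: the following holds for the Chow groups `C` with rational
coefficients of all classes `𝒱` of varieties over fields `k` (finite, in the intended use), every
Weil cohomology theory `H` with coefficients in an algebraically closed field `K` of characteristic
zero, every `s` and all varieties `A` and `Z` with Frobenius endomorphisms `πA` and `πZ` as in
`IsSituation`: `A` is an abelian variety over the field with `q ^ s` elements, isogenous to a product
of powers of abelian varieties coming from the field with `q` elements with characteristic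
polynomials `f`, the eigenvalues of Frobenius on the cohomology of `Z` generate a group of rank at
most `r` modulo the group of the numbers with a power in `E`, and homologically trivial
self-correspondences of degree zero of `A × Z` are nilpotent.

If rational and numerical equivalence coincide on `Z` (for instance if `Z` is a point, a curve or a
surface) then the unramified cohomology group `H³_nr(X, ℚ/ℤ(2))` is finite for all smooth projective
varieties `X` dominated by `A × Z`. -/
def UnramifiedForRankOver (E : IntermediateField ℚ ℂ) (q r : ℕ) {I : Type} (f : I → ℤ[X]) : Prop :=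
  ∀ (k : Type) [Field k] (𝒱 : VarClass k) (C : TheoryData.{0, 0, 0} 𝒱 ℚ) [IsChow C]
    (K : Type) [Field K] [IsAlgClosed K] [CharZero K] (H : WeilTheoryData.{0, 0, 0} C K) [IsWeil H]
    (s : ℕ) (A Z : 𝒱.Obj) (πA : A ⟶ A) (πZ : Z ⟶ Z), IsSituation H E q r s f πA πZ →
    IsFrobenius C (prodMap πA πZ) (q ^ s) → RatEqNum H Z →
    ∀ X : UnramifiedOver H (A.prod Z), Finite X.Nr

end Pool.Agent.V7H82.NR
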